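import Pool.Agent.Helper88.RR.Goals
import Pool.Agent.Helper51.PP.RH
import Pool.Agent.Helper24.PP.MA

/-!
# Packet VL (MP_69be96_nt): the normalisation is at least a multiple of `log q`
-/

set_option autoImplicit false

open Finset Filter Topology

open scoped Classical

namespace Pool.Agent.Helper90.RR

open Pool.Agent.Helper88.PP Pool.Agent.Helper88.RR
open Pool.Agent.Helper51.PP (mem_SS mem_LA SS_split VV_split VV_nonneg VV_lower)

theorem VV_mono {z a b d : ℕ} (hz : 1 ≤ z) (hab : a ≤ b) (hbd : b ≤ d) :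
    VV z a b ≤ VV z a d := by
  rw [VV_split hz hab hbd]
  have := VV_nonneg z b d
  linarith

theorem VV_pow {c C : ℝ} (hc : 0 < c)
    (hMA : ∀ z m : ℕ, 2 ≤ z → 1 ≤ m → c * m ≤ ∑ s ∈ SS z (z ^ m), 1 / (Nat.totient s : ℝ) ∧
      ∑ s ∈ SS z (z ^ m), 1 / (Nat.totient s : ℝ) ≤ C * m)
    {B : ℕ} (hB2 : 2 ≤ B) (hCB : C ≤ c / 2 * B) {m z : ℕ} (hm : 1 ≤ m) (hz : 2 ≤ z) (n : ℕ) :
    n * (c / 2) ≤ VV z m (B ^ n * m) := by
  induction n with
  | zero =>
    have := VV_nonneg z m (B ^ 0 * m)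
    simpa only [Nat.cast_zero, zero_mul] using this
  | succ n ih =>
    have hm0 : (0 : ℝ) < m := by exact_mod_cast hm
    have hBn : 1 ≤ B ^ n := Nat.one_le_pow _ _ (by omega)
    have hBn' : B ^ n ≤ B ^ (n + 1) := Nat.pow_le_pow_right (by omega) (Nat.le_succ n)
    have ha : 1 ≤ B ^ n * m := Nat.one_le_iff_ne_zero.mpr (by positivity)
    have hd : 1 ≤ B ^ (n + 1) * m := Nat.one_le_iff_ne_zero.mpr (by positivity)
    have hab : m ≤ B ^ n * m := Nat.le_mul_of_pos_left m (by positivity)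
    have hbd : B ^ n * m ≤ B ^ (n + 1) * m := Nat.mul_le_mul_right m hBn'
    rw [VV_split (by omega) hab hbd]
    have h1 := (hMA z (B ^ (n + 1) * m) hz hd).1
    have h2 := (hMA z (B ^ n * m) hz ha).2
    rw [SS_split (by omega) hbd (fun s => 1 / (Nat.totient s : ℝ))] at h1
    have h3 := VV_lower (a := B ^ n * m) hz hd
    have hdpos : (0 : ℝ) < ((B ^ (n + 1) * m : ℕ) : ℝ) := by exact_mod_cast hd
    rw [div_le_iff₀ hdpos] at h3
    have h4 : c / 2 * ((B ^ (n + 1) * m : ℕ) : ℝ) ≤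
        VV z (B ^ n * m) (B ^ (n + 1) * m) * ((B ^ (n + 1) * m : ℕ) : ℝ) := by
      refine le_trans ?_ h3
      have h5 : C * ((B ^ n * m : ℕ) : ℝ) ≤ c / 2 * ((B ^ (n + 1) * m : ℕ) : ℝ) := by
        calc C * ((B ^ n * m : ℕ) : ℝ) ≤ (c / 2 * B) * ((B ^ n * m : ℕ) : ℝ) :=
              mul_le_mul_of_nonneg_right hCB (by positivity)
          _ = _ := by push_cast; ring
      linarith
    have h6 := le_of_mul_le_mul_right h4 hdpos
    push_cast
    linarith

theorem vl : StmtVL := by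
  obtain ⟨c, C, hc, hC, hMA⟩ := Pool.Agent.Helper24.PP.ma
  obtain ⟨r1, hr1⟩ := pow_unbounded_of_one_lt (2 * C / c) (one_lt_two : (1 : ℝ) < 2)
  set r0 : ℕ := r1 + 1 with hr0
  have hB2 : 2 ≤ 2 ^ r0 := by
    calc 2 = 2 ^ 1 := rfl
      _ ≤ 2 ^ r0 := Nat.pow_le_pow_right (by norm_num) (by omega)
  have hCB : C ≤ c / 2 * ((2 ^ r0 : ℕ) : ℝ) := by
    have h1 : 2 * C / c ≤ (2 : ℝ) ^ r0 :=
      hr1.le.trans (pow_le_pow_right₀ (by norm_num) (by omega))
    rw [div_le_iff₀ hc] at h1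
    push_cast
    linarith
  have hr0pos : (0 : ℝ) < r0 := by exact_mod_cast (by omega : 0 < r0)
  refine ⟨min (c / 2) 1 / r0, by positivity, fun j m z hm hz => ?_⟩
  set k : ℕ := j / r0 with hk
  have h1 := VV_pow hc (fun z m hz hm => ⟨(hMA z m hz hm).1, (hMA z m hz hm).2.1⟩) hB2 hCB hm hz k
  have hkj : r0 * k ≤ j := Nat.mul_div_le j r0
  have h2 : VV z m ((2 ^ r0) ^ k * m) ≤ VV z m (2 ^ j * m) := by
    refine VV_mono (by omega) ?_ ?_
    · exact Nat.le_mul_of_pos_left m (by positivity)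
    · rw [← pow_mul]
      exact Nat.mul_le_mul_right m (Nat.pow_le_pow_right (by norm_num) hkj)
  have h3 : (j : ℝ) / r0 ≤ k + 1 := by
    rw [div_le_iff₀ hr0pos]
    have h4 : j < r0 * (k + 1) := by
      have := Nat.lt_mul_div_succ j (by omega : 0 < r0)
      simpa only [Nat.succ_eq_add_one, hk] using this
    have h5 : (j : ℝ) < r0 * (k + 1) := by exact_mod_cast h4
    linarith
  have hmin1 : min (c / 2) 1 ≤ c / 2 := min_le_left _ _
  have hmin2 : min (c / 2) 1 ≤ 1 := min_le_right _ _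
  have hmin0 : 0 < min (c / 2) 1 := by positivity
  have hk0 : (0 : ℝ) ≤ k := Nat.cast_nonneg k
  calc min (c / 2) 1 / r0 * j - 1 = min (c / 2) 1 * (j / r0) - 1 := by ring
    _ ≤ min (c / 2) 1 * (k + 1) - 1 := by
        have := mul_le_mul_of_nonneg_left h3 hmin0.le
        linarith
    _ ≤ min (c / 2) 1 * k := by linarith
    _ ≤ k * (c / 2) := by
        have := mul_le_mul_of_nonneg_right hmin1 hk0
        linarith
    _ ≤ _ := h1
    _ ≤ _ := h2

end Pool.Agent.Helper90.RR
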